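import Mathlib
import Pool.Agent.UL4.Stmts
import Pool.Agent.Helper34_UL3.FUB

set_option autoImplicit false

namespace Pool.Agent.UL4.H95

open MeasureTheory Set Pool.Agent.UL3 Pool.Agent.UL3.H34

theorem rsa : RsaStmt := by
  intro K hK
  have hc := img_compact hK
  have hm : MeasurableSet (img K) := hc.isClosed.measurableSet
  obtain ⟨g, hg⟩ : ∃ g : ℝ × (ℝ × ℝ) → ENNReal, g = (img K).indicator (fun _ => 1) := ⟨_, rfl⟩
  have hgm : Measurable g := by
    rw [hg]
    exact measurable_const.indicator hm
  -- the inner volume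
  have h1 : ∀ x : ℝ × ℝ, (volume : Measure E3) {y | y ∈ K ∧ y - up x 0 ∈ K} =
      ∫⁻ t : ℝ, ∫⁻ p : ℝ × ℝ, g (t, p) * g (t, p - x) := by
    intro x
    obtain ⟨D, hD⟩ : ∃ D : Set (ℝ × (ℝ × ℝ)), D = {q | q ∈ img K ∧ (q.1, q.2 - x) ∈ img K} :=
      ⟨_, rfl⟩
    have hmap : Measurable fun q : ℝ × (ℝ × ℝ) => (q.1, q.2 - x) := by fun_prop
    have hDm : MeasurableSet D := by
      rw [hD]
      exact hm.inter (hmap hm)
    have hpre : eqv ⁻¹' D = {y | y ∈ K ∧ y - up x 0 ∈ K} := by
      ext y
      rw [hD, mem_preimage, eqv_apply]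
      show up (y 0, y 1) (y 2) ∈ K ∧ up ((y 0, y 1) - x) (y 2) ∈ K ↔ y ∈ K ∧ y - up x 0 ∈ K
      have h2 : up ((y 0, y 1) - x) (y 2) = y - up x 0 := by
        ext i
        fin_cases i
        · rfl
        · rfl
        · show y 2 = y 2 - 0
          rw [sub_zero]
      rw [up_self, h2]
    rw [← hpre, mp.measure_preimage hDm.nullMeasurableSet, ← lintegral_indicator_one hDm,
      Measure.volume_eq_prod, lintegral_prod _ ((measurable_one.indicator hDm).aemeasurable)]
    refine lintegral_congr fun t => lintegral_congr fun p => ?_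
    rw [hg]
    by_cases ha : (t, p) ∈ img K
    · by_cases hb : (t, p - x) ∈ img K
      · have : (t, p) ∈ D := by
          rw [hD]
          exact ⟨ha, hb⟩
        rw [indicator_of_mem this, indicator_of_mem ha, indicator_of_mem hb, mul_one]
        rfl
      · have : (t, p) ∉ D := by
          rw [hD]
          exact fun h => hb h.2
        rw [indicator_of_notMem this, indicator_of_notMem hb, mul_zero]
    · have : (t, p) ∉ D := by
        rw [hD]
        exact fun h => ha h.1
      rw [indicator_of_notMem this, indicator_of_notMem ha, zero_mul]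
  have h2 : ∀ t : ℝ, ∫⁻ p : ℝ × ℝ, g (t, p) = (volume : Measure (ℝ × ℝ)) (sec K t) := by
    intro t
    have hms : MeasurableSet (sec K t) := hm.preimage (measurable_prodMk_left (x := t))
    rw [← lintegral_indicator_one hms]
    refine lintegral_congr fun p => ?_
    rw [hg]
    by_cases hp : p ∈ sec K t
    · have h3 : (t, p) ∈ img K := hp
      rw [indicator_of_mem hp, indicator_of_mem h3]
      rfl
    · have h3 : (t, p) ∉ img K := hp
      rw [indicator_of_notMem hp, indicator_of_notMem h3]
  simp only [h1]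
  rw [lintegral_lintegral_swap]
  · refine lintegral_congr fun t => ?_
    rw [lintegral_lintegral_swap]
    · have h3 : ∀ p : ℝ × ℝ, ∫⁻ x : ℝ × ℝ, g (t, p) * g (t, p - x) =
          g (t, p) * (volume : Measure (ℝ × ℝ)) (sec K t) := by
        intro p
        rw [lintegral_const_mul _ (by fun_prop), ← h2 t]
        congr 1
        exact lintegral_sub_left_eq_self (fun q => g (t, q)) p
      simp only [h3]
      rw [lintegral_mul_const _ (by fun_prop), h2, sq]
    · have : Measurable fun z : (ℝ × ℝ) × (ℝ × ℝ) => g (t, z.2) * g (t, z.2 - z.1) := by fun_prop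
      exact this.aemeasurable
  · have h4 : Measurable fun z : ((ℝ × ℝ) × ℝ) × (ℝ × ℝ) =>
        g (z.1.2, z.2) * g (z.1.2, z.2 - z.1.1) := by fun_prop
    exact h4.lintegral_prod_right'.aemeasurable

end Pool.Agent.UL4.H95
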